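import Pool.Agent.WR3.StmtsB

/-!
# WR3 row HSD: counting functions of invariant sets are almost harmonic
-/

set_option autoImplicit false

namespace Pool.Agent.WR3.H81

open Pool.Agent.WIR Pool.Agent.WR2 Pool.Agent.WR3
open scoped BigOperators ENNReal Topology
open Filter

theorem ind_nonneg (S : Set ℕ) (c : ℕ) : 0 ≤ ind S c := by
  unfold ind
  split_ifs
  · exact zero_le_one
  · exact le_rfl

theorem ind_le (S : Set ℕ) (c : ℕ) : ind S c ≤ 1 := by
  unfold ind
  split_ifs
  · exact le_rfl
  · exact zero_le_one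

theorem hsd (hhar : HarStmt) (hsty : StyStmt) : HsdStmt := by
  intro p
  obtain ⟨D, x0, hD, hx0, H⟩ := hhar p 2 1 (by norm_num) le_rfl
  refine ⟨D, x0, hD, hx0, ?_⟩
  intro S B hS x hx hB
  refine H (NS S) (fun _ c => ind S c) ((B : ℝ) + 1) (by positivity)
    (fun _ c => ind_nonneg S c) ?_ ?_ x hx hB
  · intro z _ c hz _
    have h1 : Real.log 2 ≤ Real.log z := Real.log_le_log (by norm_num) hz
    have h2 := Real.log_two_gt_d9
    have h3 := ind_le S c
    show ind S c ≤ 2 * Real.log z
    linarith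
  · intro t z hz
    exact hsty S B hS t z ((by positivity : (0 : ℝ) ≤ 2 ^ t).trans hz)

end Pool.Agent.WR3.H81
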