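import Pool.Agent.WR3.StmtsB

/-!
# WR3 row RLI: linear bound for the trees
-/

set_option autoImplicit false

namespace Pool.Agent.WR3.H81

open Pool.Agent.WIR Pool.Agent.WR2 Pool.Agent.WR3
open scoped BigOperators ENNReal Topology
open Filter

theorem NS_le (S : Set ℕ) (m : ℕ) : NS S (m : ℝ) ≤ m := by
  classical
  unfold NS
  rw [Nat.floor_natCast]
  have h := Finset.card_filter_le (Finset.Icc 1 m) (fun b => b ∈ S)
  rw [Nat.card_Icc, Nat.add_sub_cancel] at h
  exact_mod_cast h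

theorem rli (hrmu : RmuStmt) (hrsn : RsnStmt) (hpdd : PddStmt) : RliStmt := by
  classical
  intro a ha
  obtain ⟨-, -, -, h4⟩ := hrmu a ha
  obtain ⟨K, hK, hpd⟩ := hpdd a ha
  have hcast : ∀ n : ℕ, (2 : ℝ) ^ (n + 1) * a = ((2 ^ (n + 1) * a : ℕ) : ℝ) := by
    intro n
    push_cast
    ring
  have hstep : ∀ n : ℕ, FR a (2 ^ (n + 1)) - FR a (2 ^ n) ≤
      K * NS (PT a) (2 ^ (n + 1) * a) := by
    intro n
    obtain ⟨-, h2⟩ := hrsn a ha n
    have h3 : NS (PT a) (2 ^ (n + 1) * a) =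
        (((Finset.Icc 1 (2 ^ (n + 1) * a)).filter (fun b => ∃ j, T^[j] b = a)).card : ℝ) := by
      rw [hcast]
      unfold NS
      rw [Nat.floor_natCast]
      rfl
    have h5 : sN (n + 1) a ≤ ENNReal.ofReal (K * NS (PT a) (2 ^ (n + 1) * a)) := by
      unfold sN
      refine ENNReal.tsum_le_of_sum_range_le fun L => ?_
      have h6 := hpd (n + 1) L
      have h7 : ENNReal.ofReal (K * NS (PT a) (2 ^ (n + 1) * a)) =
          ((K * ((Finset.Icc 1 (2 ^ (n + 1) * a)).filter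
            (fun b => ∃ j, T^[j] b = a)).card : ℕ) : ℝ≥0∞) := by
        rw [h3, ← ENNReal.ofReal_natCast]
        congr 1
        push_cast
        rfl
      rw [h7]
      exact_mod_cast h6
    rw [h2] at h5
    refine (ENNReal.ofReal_le_ofReal_iff ?_).1 h5
    rw [h3]
    positivity
  have hstep' : ∀ n : ℕ, FR a (2 ^ (n + 1)) - FR a (2 ^ n) ≤ K * (2 ^ (n + 1) * a) := by
    intro n
    refine (hstep n).trans (mul_le_mul_of_nonneg_left ?_ (Nat.cast_nonneg _))
    rw [hcast]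
    exact NS_le _ _
  have hpow : ∀ n : ℕ, FR a (2 ^ n) ≤ FR a 1 + 2 * K * a * 2 ^ n := by
    intro n
    induction n with
    | zero =>
      have : (0 : ℝ) ≤ 2 * K * a * 2 ^ 0 := by positivity
      rw [pow_zero] at this ⊢
      linarith
    | succ n ih =>
      have h1 := hstep' n
      have e1 : (2 : ℝ) ^ (n + 1) = 2 * 2 ^ n := pow_succ' _ _
      rw [e1] at h1 ⊢
      nlinarith
  refine ⟨⟨|FR a 1| + 4 * K * a, ?_⟩, ⟨K, by exact_mod_cast hK, hstep⟩⟩
  intro x hx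
  obtain ⟨n, hn1, hn2⟩ := exists_nat_pow_near hx (by norm_num : (1 : ℝ) < 2)
  have h1 := (h4 x (2 ^ (n + 1)) hn2.le).2
  have h2 := hpow (n + 1)
  have h3 := le_abs_self (FR a 1)
  have h5 : |FR a 1| ≤ |FR a 1| * x := le_mul_of_one_le_right (abs_nonneg _) hx
  have h6 : 2 * K * a * (2 : ℝ) ^ (n + 1) ≤ 4 * K * a * x := by
    have e1 : (2 : ℝ) ^ (n + 1) = 2 * 2 ^ n := pow_succ' _ _
    rw [e1]
    have h7 : (0 : ℝ) ≤ 4 * K * a := by positivity
    nlinarith [mul_le_mul_of_nonneg_left hn1 h7]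
  rw [add_mul]
  linarith

end Pool.Agent.WR3.H81
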